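import Pool.Agent.R977.SC.Final
import Pool.Agent.R977.SC.PathMeas
import Pool.Agent.R977.SC.SM
import Pool.Agent.R977.SC.Iid
import Pool.Agent.R977.SC.Walk
import Pool.Agent.R977.SC.Geo
import Pool.Agent.R977.SC.Pos
import Pool.Agent.R977.SC.Hit
import Pool.Agent.R977.SC.Cons
import Pool.Agent.R977.SC.Level
import Pool.Agent.R977.SC.Vdet
import Pool.Agent.R977.SC.Fin

open MeasureTheory ProbabilityTheory Filter Topology Set
open scoped ENNReal NNReal

namespace Pool.Agent.Results.MP_8cdf0c_pr.InfinitelyManyComponents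

universe u

/-- The span set `{t - s : 0 ≤ s ≤ t ≤ 1, f s = f t}` of a path, as a subset of `ℝ`. -/
def spanSet (f : ℝ≥0 → ℝ) : Set ℝ :=
  {u | ∃ s t : ℝ≥0, s ≤ t ∧ t ≤ 1 ∧ f s = f t ∧ u = (t : ℝ) - s}

open Pool.Agent.R977.SC in
/-- **Full answer to Q1 (disproof).** For a standard linear Brownian motion `B`, with positive
probability the span set `Sp^{[0,1]}(1)` has infinitely many connected components; in particular it
is not the union of finitely many closed intervals. -/
theorem result {Ω : Type u} [MeasurableSpace Ω] {P : Measure Ω} {B : ℝ≥0 → Ω → ℝ}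
    (hB : IsBrownianReal B P) :
    ∃ A : Set Ω, MeasurableSet A ∧ 0 < P A ∧ ∀ ω ∈ A,
      Infinite (ConnectedComponents (spanSet fun t => B t ω)) ∧
      ¬ ∃ F : Finset (ℝ × ℝ), spanSet (fun t => B t ω) = ⋃ p ∈ F, Icc p.1 p.2 := by
  have hPATH : StmPATH := piecePATH
  have hMEAS : StmMEAS.{u} := pieceMEAS
  have hSM : StmSM.{u} := pieceSM hPATH hMEAS
  have hLAW : StmLAW.{u} := pieceLAW hPATH hMEAS
  have hIID : StmIID.{u} := pieceIID hPATH hMEAS hSM hLAW
  have hA : StmA.{u} := pieceA hPATH hMEAS hIID hLAW pieceWALK (pieceGEO hPATH) (pieceDISJ hPATH)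
    piecePOS
  exact main pieceHIT hA pieceSMALL pieceCONS pieceLEVEL pieceVDET pieceFIN hB

end Pool.Agent.Results.MP_8cdf0c_pr.InfinitelyManyComponents
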